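import Pool.Agent.H47.RP.Targets

/-!
# Row RSE: prediction by the remote past, all bounded measurable functions (helper79)
-/

set_option autoImplicit false

open MeasureTheory ProbabilityTheory Filter Topology Finset
open scoped ENNReal NNReal

namespace Pool.Agent.H79.RPR

open Pool.Agent.H89.MT (I1 X pt z1 IsMult)
open Pool.Agent.H36.RP (S past remote remote_le past_le Star)
open Pool.Agent.H47.RP

theorem apx (κ : Measure X) [IsProbabilityMeasure κ] (m : ℤ) (ψ : I1 → ℝ) (hψ : Measurable ψ)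
    (hb : ∀ a, |ψ a| ≤ 1) (ε : ℝ≥0∞) (hε : ε ≠ 0) : ∃ φ : I1 → ℝ, Continuous φ ∧
      Integrable (fun x : X => φ (x m)) κ ∧
      eLpNorm ((fun x : X => ψ (x m)) - fun x : X => φ (x m)) 1 κ ≤ ε := by
  have hmm : Measurable (fun x : X => x m) := measurable_pi_apply m
  have hprob : IsProbabilityMeasure (κ.map (fun x : X => x m)) :=
    Measure.isProbabilityMeasure_map hmm.aemeasurable
  have hψL : MemLp ψ 1 (κ.map fun x : X => x m) := by
    rw [memLp_one_iff_integrable]
    refine (integrable_const (1 : ℝ)).mono' hψ.aestronglyMeasurable (ae_of_all _ fun x => ?_)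
    rw [Real.norm_eq_abs]
    exact hb x
  obtain ⟨φ, hφ1, hφ2⟩ := hψL.exists_boundedContinuous_eLpNorm_sub_le ENNReal.one_ne_top hε
  refine ⟨φ, φ.continuous, ?_, ?_⟩
  · refine (integrable_const ‖φ‖).mono' (φ.continuous.measurable.comp hmm).aestronglyMeasurable
      (ae_of_all _ fun x => ?_)
    exact φ.norm_coe_le_norm (x m)
  · have h1 := eLpNorm_map_measure (μ := κ) (p := 1) (f := fun x : X => x m)
      (g := ψ - (φ : I1 → ℝ))
      (hψ.sub φ.continuous.measurable).aestronglyMeasurable hmm.aemeasurable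
    rw [h1] at hφ1
    exact hφ1

theorem dist_le (κ : Measure X) [IsProbabilityMeasure κ] (m1 m2 : MeasurableSpace X)
    (f g : X → ℝ) (hf : Integrable f κ) (hg : Integrable g κ) (ε : ℝ≥0∞)
    (hfg : eLpNorm (f - g) 1 κ ≤ ε) (hgg : κ[g | m1] =ᵐ[κ] κ[g | m2]) :
    eLpNorm (κ[f | m1] - κ[f | m2]) 1 κ ≤ ε + ε := by
  have e1 : κ[f | m1] - κ[f | m2] =ᵐ[κ] κ[f - g | m1] - κ[f - g | m2] := by
    filter_upwards [condExp_sub hf hg m1, condExp_sub hf hg m2, hgg] with x h1 h2 h3
    simp only [Pi.sub_apply] at h1 h2 ⊢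
    rw [h1, h2, h3]
    ring
  rw [eLpNorm_congr_ae e1]
  refine (eLpNorm_sub_le integrable_condExp.aestronglyMeasurable
    integrable_condExp.aestronglyMeasurable le_rfl).trans ?_
  exact add_le_add ((eLpNorm_condExp_le_eLpNorm _ le_rfl).trans hfg)
    ((eLpNorm_condExp_le_eLpNorm _ le_rfl).trans hfg)

theorem key (hC : T_RSC) (κ : Measure X) [IsProbabilityMeasure κ] (hS : MeasurePreserving S κ κ)
    (hst : Star κ) (m : ℤ) (ψ : I1 → ℝ) (hψ : Measurable ψ) (hb : ∀ a, |ψ a| ≤ 1) (ε : ℝ≥0∞)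
    (hε : ε ≠ 0) : eLpNorm (κ[fun x => ψ (x m) | past (m - 1)] -
      κ[fun x => ψ (x m) | remote]) 1 κ ≤ ε + ε := by
  obtain ⟨φ, h1, h2, h3⟩ := apx κ m ψ hψ hb ε hε
  have hmm : Measurable (fun x : X => x m) := measurable_pi_apply m
  have hf : Integrable (fun x : X => ψ (x m)) κ := by
    refine (integrable_const (1 : ℝ)).mono' (hψ.comp hmm).aestronglyMeasurable
      (ae_of_all _ fun x => ?_)
    rw [Real.norm_eq_abs]
    exact hb (x m)
  exact dist_le κ (past (m - 1)) remote _ _ hf h2 ε h3 (hC κ hS hst m φ h1)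

theorem pf_RSE (hC : T_RSC) : T_RSE := by
  intro κ _ hS hstar m ψ hψ hb
  rcases hstar with hst | hz
  · have h0 : eLpNorm (κ[fun x => ψ (x m) | past (m - 1)] -
        κ[fun x => ψ (x m) | remote]) 1 κ = 0 := by
      refine le_antisymm (ENNReal.le_of_forall_pos_le_add fun ε hε _ => ?_) bot_le
      have hε2 : ((ε : ℝ≥0∞) / 2) ≠ 0 := by
        simp [hε.ne']
      have h1 := key hC κ hS hst m ψ hψ hb ((ε : ℝ≥0∞) / 2) hε2
      rwa [ENNReal.add_halves, ← zero_add (ε : ℝ≥0∞)] at h1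
    rw [eLpNorm_eq_zero_iff (integrable_condExp.sub integrable_condExp).aestronglyMeasurable
      one_ne_zero] at h0
    filter_upwards [h0] with x hx
    simpa [sub_eq_zero] using hx
  · have h1 : (fun x : X => ψ (x m)) =ᵐ[κ] fun _ => ψ z1 := by
      filter_upwards [hz] with x hx
      have h2 : x m = z1 := Subtype.ext (hx m)
      rw [h2]
    have h3 : κ[fun x : X => ψ (x m) | past (m - 1)] =ᵐ[κ] fun _ => ψ z1 := by
      refine (condExp_congr_ae h1).trans ?_
      rw [condExp_const (past_le (m - 1))]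
    have h4 : κ[fun x : X => ψ (x m) | remote] =ᵐ[κ] fun _ => ψ z1 := by
      refine (condExp_congr_ae h1).trans ?_
      rw [condExp_const remote_le]
    exact h3.trans h4.symm

end Pool.Agent.H79.RPR
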